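import Pool.Agent.Y677.Co.Main

/-!
# The coarseness of complete graphs: all the conjectured values are too small by one (helper677)

The conjecture asks for `7, 15, 21, 28, 36` at `p = 13, 18, 21, 24, 27` and for
`(9 n² + 13 n + 2) / 2` at `p = 9 n + 7`; every one of these values is false: the true coarseness
is larger by exactly one.
-/

set_option autoImplicit false

namespace Pool.Agent.Results.MP_64ab56_co.AllConjecturedValuesFail

open SimpleGraph Pool.Agent.Y677.Co

/-- **The coarseness of the complete graphs** with `13`, `18`, `21`, `24`, `27` and `9 n + 7`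
vertices (`n ≥ 1`). -/
theorem result :
    coarseness (⊤ : SimpleGraph (Fin 13)) = 8 ∧
    coarseness (⊤ : SimpleGraph (Fin 18)) = 16 ∧
    coarseness (⊤ : SimpleGraph (Fin 21)) = 22 ∧
    coarseness (⊤ : SimpleGraph (Fin 24)) = 29 ∧
    coarseness (⊤ : SimpleGraph (Fin 27)) = 37 ∧
    ∀ n : ℕ, 1 ≤ n →
      2 * coarseness (⊤ : SimpleGraph (Fin (9 * n + 7))) = 9 * n ^ 2 + 13 * n + 4 :=
  ⟨k13, k18, k21, k24, k27, kfam⟩

end Pool.Agent.Results.MP_64ab56_co.AllConjecturedValuesFail
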